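import Pool.Agent.Zk98.WD.Final
import Pool.Agent.Zk98.WD.Exist

/-!
# MP_4215b8_pr, Q1: NO

On the classical Wiener space `C₀([0,1], ℝⁿ)`, `n ≥ 1`, there is a `D^∞`-derivation which is not of the form
`f ↦ ⟨grad f, X⟩_H + div (A grad f)`, whatever the process `X ∈ L²` and the matrix valued process `A`.

The derivation is `δ f = d/dr f ∘ (cos r + sin r B)` at `r = 0`, where `B (ω¹, ω²) = (-ω², ω¹)` exchanges the
two halves of the path `ω`. Since `B² = -1` and `B` preserves the Wiener measure, `cos r + sin r B` is a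
one-parameter group of linear maps which preserve the measure and commute with the Ornstein-Uhlenbeck
semigroup `P_t`. The key estimate is `‖δ P_t K‖_p ≤ (C_p / t) ‖K‖_p` for `p ≥ 2`, so that
`δ (1 - L)⁻²` is bounded in `L^p`. The definitions are in `Pool.Agent.Zk98.WD.Defs` and
`Pool.Agent.R876.WM.Defs`.
-/

open MeasureTheory ProbabilityTheory
open scoped ENNReal NNReal unitInterval

namespace Pool.Agent.Results.MP_4215b8_pr.NonlocalRotation

open Pool.Agent.Zk98.WD

theorem result (n : ℕ) (hn : 1 ≤ n) :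
    ∃ P : Measure (Path n), IsWiener P ∧ (∀ Q : Measure (Path n), IsWiener Q → Q = P) ∧
      ∃ δ : (Path n → ℝ) → (Path n → ℝ), IsDerivation P δ ∧
        ∀ (X : Path n × I → E n) (A : Path n × I → (E n →L[ℝ] E n)),
          MemLp X 2 (P.prod volume) → ¬ HasForm P δ X A := by
  obtain ⟨P, hP⟩ := exists_wiener n
  have hg := hP.gauss
  exact ⟨P, hP, fun Q hQ => unique_wiener hQ hP, delta (rot_sw hP), isDerivation_delta (rot_sw hP),
    fun X A hX => not_hasForm hP hn hX A⟩

end Pool.Agent.Results.MP_4215b8_pr.NonlocalRotation
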